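import Mathlib
import Pool.Agent.Helper47.QH.Defs

/-!
# QH-5: conic Caratheodory theorem with cost
-/

set_option autoImplicit false

namespace Pool.Agent.Helper33.QH

open Pool.Agent.Helper47.QH

open scoped BigOperators RealInnerProductSpace

/-- A nontrivial relation with nonnegative sum of coefficients. -/
theorem exists_rel {d : ℕ} {ι : Type} (u : ι → EuclideanSpace ℝ (Fin d)) (s : Finset ι)
    (hs : d < s.card) :
    ∃ l : ι → ℝ, ∑ i ∈ s, l i • u i = 0 ∧ 0 ≤ ∑ i ∈ s, l i ∧ ∃ i ∈ s, 0 < l i := by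
  classical
  have hnot : ¬ LinearIndependent ℝ (fun i : s => u i) := by
    intro h
    have h1 := h.fintype_card_le_finrank
    rw [finrank_euclideanSpace, Fintype.card_fin, Fintype.card_coe] at h1
    omega
  rw [Fintype.not_linearIndependent_iff] at hnot
  obtain ⟨g, hg, i₀, hi₀⟩ := hnot
  let l : ι → ℝ := fun i => if h : i ∈ s then g ⟨i, h⟩ else 0
  have hl : ∀ i : s, l i = g i := fun i => by simp [l]
  have hl0 : ∑ i ∈ s, l i • u i = 0 := by
    rw [← Finset.sum_coe_sort s (fun i => l i • u i)]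
    rw [← hg]
    exact Finset.sum_congr rfl (fun i _ => by rw [hl i])
  have hne : l i₀ ≠ 0 := by rw [hl i₀]; exact hi₀
  -- general fact
  have key : ∀ m : ι → ℝ, 0 ≤ ∑ i ∈ s, m i → m i₀ ≠ 0 → ∃ i ∈ s, 0 < m i := by
    intro m hm hm0
    by_contra hcon
    push Not at hcon
    have h2 : ∑ i ∈ s, m i ≤ 0 := Finset.sum_nonpos hcon
    have h3 : ∑ i ∈ s, m i = 0 := le_antisymm h2 hm
    have h4 := (Finset.sum_eq_zero_iff_of_nonpos hcon).1 h3
    exact hm0 (h4 i₀ i₀.2)
  rcases le_total 0 (∑ i ∈ s, l i) with h | h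
  · exact ⟨l, hl0, h, key l h hne⟩
  · refine ⟨fun i => - l i, ?_, ?_, ?_⟩
    · have : ∑ i ∈ s, (- l i) • u i = - ∑ i ∈ s, l i • u i := by
        rw [← Finset.sum_neg_distrib]
        exact Finset.sum_congr rfl (fun i _ => by rw [neg_smul])
      rw [this, hl0, neg_zero]
    · rw [Finset.sum_neg_distrib]
      linarith
    · refine key (fun i => - l i) ?_ ?_
      · rw [Finset.sum_neg_distrib]
        linarith
      · simpa using hne

/-- The reduction step, iterated. -/
theorem conic_aux {d : ℕ} {ι : Type} (u : ι → EuclideanSpace ℝ (Fin d)) :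
    ∀ (n : ℕ) (s : Finset ι) (p : ι → ℝ), s.card = n → (∀ i, 0 ≤ p i) →
      ∃ (s' : Finset ι) (q : ι → ℝ), s'.card ≤ d ∧ (∀ i, 0 ≤ q i) ∧
        ∑ i ∈ s', q i • u i = ∑ i ∈ s, p i • u i ∧ ∑ i ∈ s', q i ≤ ∑ i ∈ s, p i := by
  classical
  intro n
  induction n with
  | zero =>
    intro s p hs hp
    exact ⟨s, p, by omega, hp, rfl, le_refl _⟩
  | succ n ih =>
    intro s p hs hp
    by_cases hd : s.card ≤ d
    · exact ⟨s, p, hd, hp, rfl, le_refl _⟩
    push Not at hd
    obtain ⟨l, hl0, hlsum, i₁, hi₁, hi₁pos⟩ := exists_rel u s hd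
    obtain ⟨i₀, hi₀, hmin⟩ := Finset.exists_min_image (s.filter (fun i => 0 < l i))
      (fun i => p i / l i) ⟨i₁, Finset.mem_filter.2 ⟨hi₁, hi₁pos⟩⟩
    rw [Finset.mem_filter] at hi₀
    obtain ⟨hi₀s, hi₀pos⟩ := hi₀
    set t : ℝ := p i₀ / l i₀ with ht
    have ht0 : 0 ≤ t := div_nonneg (hp i₀) hi₀pos.le
    let q : ι → ℝ := fun i => if i ∈ s then p i - t * l i else p i
    have hq : ∀ i ∈ s, q i = p i - t * l i := fun i hi => by simp [q, hi]
    have hqnn : ∀ i, 0 ≤ q i := by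
      intro i
      by_cases his : i ∈ s
      · rw [hq i his]
        rcases le_or_gt (l i) 0 with hli | hli
        · have := mul_nonneg ht0 (neg_nonneg.2 hli)
          have h1 := hp i
          nlinarith
        · have h1 : t ≤ p i / l i := hmin i (Finset.mem_filter.2 ⟨his, hli⟩)
          rw [le_div_iff₀ hli] at h1
          linarith
      · have : q i = p i := by simp [q, his]
        rw [this]
        exact hp i
    have hq0 : q i₀ = 0 := by
      rw [hq i₀ hi₀s, ht, div_mul_cancel₀ _ hi₀pos.ne', sub_self]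
    have hcard : (s.erase i₀).card = n := by
      rw [Finset.card_erase_of_mem hi₀s, hs]
      rfl
    obtain ⟨s', q', h1, h2, h3, h4⟩ := ih (s.erase i₀) q hcard hqnn
    refine ⟨s', q', h1, h2, ?_, ?_⟩
    · rw [h3]
      have e1 : ∑ i ∈ s, q i • u i = ∑ i ∈ s.erase i₀, q i • u i := by
        rw [← Finset.sum_erase_add s _ hi₀s, hq0, zero_smul, add_zero]
      rw [← e1]
      have e2 : ∑ i ∈ s, q i • u i = ∑ i ∈ s, p i • u i - t • ∑ i ∈ s, l i • u i := by
        rw [Finset.smul_sum, ← Finset.sum_sub_distrib]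
        refine Finset.sum_congr rfl (fun i hi => ?_)
        rw [hq i hi, sub_smul, mul_smul]
      rw [e2, hl0, smul_zero, sub_zero]
    · refine h4.trans ?_
      have e1 : ∑ i ∈ s, q i = ∑ i ∈ s.erase i₀, q i := by
        rw [← Finset.sum_erase_add s _ hi₀s, hq0, add_zero]
      rw [← e1]
      have e2 : ∑ i ∈ s, q i = ∑ i ∈ s, p i - t * ∑ i ∈ s, l i := by
        rw [Finset.mul_sum, ← Finset.sum_sub_distrib]
        exact Finset.sum_congr rfl (fun i hi => hq i hi)
      rw [e2]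
      have := mul_nonneg ht0 hlsum
      linarith

/-- QH-5 (conic Caratheodory with cost). -/
theorem conic_cara {d : ℕ} {ι : Type} [Fintype ι] (u : ι → EuclideanSpace ℝ (Fin d))
    (p : ι → ℝ) (hp : ∀ i, 0 ≤ p i) :
    ∃ (s : Finset ι) (q : ι → ℝ), s.card ≤ d ∧ (∀ i, 0 ≤ q i) ∧
      ∑ i ∈ s, q i • u i = ∑ i, p i • u i ∧ ∑ i ∈ s, q i ≤ ∑ i, p i := by
  obtain ⟨s', q, h1, h2, h3, h4⟩ := conic_aux u _ Finset.univ p rfl hp
  exact ⟨s', q, h1, h2, h3, h4⟩

end Pool.Agent.Helper33.QH
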